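import Mathlib
import Pool.Agent.Results.MP_8f56b8_lc.ExponentialLowerBound

set_option autoImplicit false

/-!
The matroid median problem: costs, approximate solutions and randomized rank-oracle procedures.
The rank function `rk`, the deterministic adaptive procedures `QueryAlg` and the numbers of their
oracle calls are those of the starting file
`Pool.Agent.Results.MP_8f56b8_lc.ExponentialLowerBound`.
-/

namespace Pool.Agent.Y591.MM

open Pool.Agent.Results.MP_8f56b8_lc.ExponentialLowerBound (rk QueryAlg)
open scoped ENNReal

/-- The objective `Φ(H) = 2 ∑ r(F_i ∪ H) - k r(H)` of the matroid median problem. -/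
noncomputable def phi {n k : ℕ} (M : Matroid (Fin n)) (F : Fin k → Finset (Fin n))
    (H : Finset (Fin n)) : ℤ :=
  2 * ∑ i, (rk M (F i ∪ H) : ℤ) - (k : ℤ) * (rk M H : ℤ)

/-- The distance `d(X, Y) = 2 r(X ∪ Y) - r(X) - r(Y)`. -/
noncomputable def dst {n : ℕ} (M : Matroid (Fin n)) (X Y : Finset (Fin n)) : ℤ :=
  2 * (rk M (X ∪ Y) : ℤ) - (rk M X : ℤ) - (rk M Y : ℤ)

/-- The sum of the distances from the given sets to `H`. -/
noncomputable def cost {n k : ℕ} (M : Matroid (Fin n)) (F : Fin k → Finset (Fin n))
    (H : Finset (Fin n)) : ℤ :=
  ∑ i, dst M (F i) H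

/-- The sum of the distances from the given sets to `H` is at most `ρ` times the least possible
sum of distances. -/
def Approx {n k : ℕ} (M : Matroid (Fin n)) (F : Fin k → Finset (Fin n)) (ρ : ℝ)
    (H : Finset (Fin n)) : Prop :=
  ∀ H' : Finset (Fin n), (cost M F H : ℝ) ≤ ρ * (cost M F H' : ℝ)

/-- A randomized procedure with a rank oracle: a probability distribution on deterministic adaptive
procedures which ask for ranks of subsets of the ground set and output such a subset.  (Only the
answers `0, …, n` occur, so discrete distributions suffice.) -/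
abbrev RandProc (n : ℕ) : Type := PMF (QueryAlg (Finset (Fin n)) ℕ (Finset (Fin n)))

/-- The probability that the output has the property `Q` when the oracle is that of `M`. -/
noncomputable def probability {n : ℕ} (D : RandProc n) (M : Matroid (Fin n))
    (Q : Finset (Fin n) → Prop) : ℝ≥0∞ :=
  D.toOuterMeasure {T | Q (T.run (rk M))}

/-- The expected number of oracle calls when the oracle is that of `M`. -/
noncomputable def expectedCalls {n : ℕ} (D : RandProc n) (M : Matroid (Fin n)) : ℝ≥0∞ :=
  ∑' T : QueryAlg (Finset (Fin n)) ℕ (Finset (Fin n)), D T * (T.calls (rk M) : ℝ≥0∞)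

/-- A randomized algorithm for the matroid median problem: from the size `n` of the ground set and
the given sets `F_1, …, F_k` it produces a randomized procedure with a rank oracle. -/
abbrev RandAlg : Type := (n k : ℕ) → (Fin k → Finset (Fin n)) → RandProc n

/-- For all matroids and all `k` subsets of their ground sets, the expected number of oracle calls
is at most the polynomial `c (n + k + 1) ^ c`, and the probability of finding a solution within the
factor `ρ` is at least the inverse of this polynomial. -/
def Efficient (k : ℕ) (ρ : ℝ) (A : RandAlg) (c : ℕ) : Prop :=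
  ∀ (n : ℕ) (M : Matroid (Fin n)) (F : Fin k → Finset (Fin n)), M.E = Set.univ →
    expectedCalls (A n k F) M ≤ ((c * (n + k + 1) ^ c : ℕ) : ℝ≥0∞) ∧
    ((c * (n + k + 1) ^ c : ℕ) : ℝ≥0∞)⁻¹ ≤ probability (A n k F) M (Approx M F ρ)

end Pool.Agent.Y591.MM
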