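import Mathlib
import Pool.Agent.Y591.MM.Defs

set_option autoImplicit false

/-!
The adversary argument for randomized procedures with a rank oracle.
-/

namespace Pool.Agent.Y591.MM

open Finset
open Pool.Agent.Results.MP_8f56b8_lc.ExponentialLowerBound (rk QueryAlg)
open scoped ENNReal Classical

variable {Q A Out κ : Type}

theorem card_changed (T : QueryAlg Q A Out) (f : Q → A) (G : κ → Q → A) (K : Finset κ) (m : ℕ)
    (hm : ∀ q, (K.filter (fun a => G a q ≠ f q)).card ≤ m) :
    (K.filter (fun a => T.run (G a) ≠ T.run f)).card ≤ T.calls f * m := by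
  induction T with
  | output o =>
    have : K.filter (fun a => (QueryAlg.output o : QueryAlg Q A Out).run (G a)
        ≠ (QueryAlg.output o : QueryAlg Q A Out).run f) = ∅ := by
      apply filter_eq_empty_iff.2
      intro a _ h
      exact h rfl
    rw [this]
    simp
  | query q next ih =>
    have hcalls : (QueryAlg.query q next).calls f = (next (f q)).calls f + 1 := rfl
    rw [hcalls, add_mul, one_mul]
    have hsub : K.filter (fun a => (QueryAlg.query q next).run (G a)
        ≠ (QueryAlg.query q next).run f) ⊆
        (K.filter (fun a => (next (f q)).run (G a) ≠ (next (f q)).run f)) ∪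
        (K.filter (fun a => G a q ≠ f q)) := by
      intro a ha
      rw [mem_filter] at ha
      rw [mem_union, mem_filter, mem_filter]
      by_cases hq : G a q = f q
      · left
        refine ⟨ha.1, fun h => ha.2 ?_⟩
        change (next (G a q)).run (G a) = (next (f q)).run f
        rw [hq, h]
      · right
        exact ⟨ha.1, hq⟩
    have h1 := card_le_card hsub
    have h2 := card_union_le (K.filter (fun a => (next (f q)).run (G a) ≠ (next (f q)).run f))
      (K.filter (fun a => G a q ≠ f q))
    have h3 := ih (f q)
    have h4 := hm q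
    omega

theorem card_good (T : QueryAlg Q A Out) (f : Q → A) (G : κ → Q → A) (K : Finset κ) (m k : ℕ)
    (hm : ∀ q, (K.filter (fun a => G a q ≠ f q)).card ≤ m) (Good : κ → Out → Prop)
    (hk : ∀ X, (K.filter (fun a => Good a X)).card ≤ k * m) :
    (K.filter (fun a => Good a (T.run (G a)))).card ≤ T.calls f * m + k * m := by
  have hsub : K.filter (fun a => Good a (T.run (G a))) ⊆
      (K.filter (fun a => T.run (G a) ≠ T.run f)) ∪
      (K.filter (fun a => Good a (T.run f))) := by
    intro a ha
    rw [mem_filter] at ha
    rw [mem_union, mem_filter, mem_filter]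
    by_cases h : T.run (G a) = T.run f
    · right
      rw [← h]
      exact ha
    · left
      exact ⟨ha.1, h⟩
  have h1 := card_le_card hsub
  have h2 := card_union_le (K.filter (fun a => T.run (G a) ≠ T.run f))
    (K.filter (fun a => Good a (T.run f)))
  have h3 := card_changed T f G K m hm
  have h4 := hk (T.run f)
  omega

variable {n : ℕ}

theorem probability_eq (D : RandProc n) (M : Matroid (Fin n)) (P : Finset (Fin n) → Prop) :
    probability D M P = ∑' T, D T * (if P (T.run (rk M)) then 1 else 0) := by
  unfold probability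
  rw [PMF.toOuterMeasure_apply]
  apply tsum_congr
  intro T
  unfold Set.indicator
  by_cases h : P (T.run (rk M))
  · simp [h]
  · simp [h]

/-- the adversary argument for randomized procedures -/
theorem sum_probability_le (D : RandProc n) (M₀ : Matroid (Fin n)) (M : κ → Matroid (Fin n))
    (K : Finset κ) (m k : ℕ)
    (hm : ∀ q, (K.filter (fun a => rk (M a) q ≠ rk M₀ q)).card ≤ m)
    (Good : κ → Finset (Fin n) → Prop)
    (hk : ∀ X, (K.filter (fun a => Good a X)).card ≤ k * m) :
    ∑ a ∈ K, probability D (M a) (Good a) ≤ (m : ℝ≥0∞) * (expectedCalls D M₀ + k) := by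
  have h1 : ∀ a ∈ K, probability D (M a) (Good a) =
      ∑' T, D T * (if Good a (T.run (rk (M a))) then 1 else 0) :=
    fun a _ => probability_eq D (M a) (Good a)
  rw [sum_congr rfl h1, ← Summable.tsum_finsetSum (fun _ _ => ENNReal.summable)]
  have h2 : (m : ℝ≥0∞) * (expectedCalls D M₀ + k) =
      ∑' T, D T * ((T.calls (rk M₀) * m + k * m : ℕ) : ℝ≥0∞) := by
    have h3 : ∀ T, D T * ((T.calls (rk M₀) * m + k * m : ℕ) : ℝ≥0∞) =
        (m : ℝ≥0∞) * (D T * (T.calls (rk M₀) : ℝ≥0∞)) + (m * k : ℝ≥0∞) * D T := by
      intro T
      push_cast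
      ring
    rw [tsum_congr h3, ENNReal.tsum_add, ENNReal.tsum_mul_left, ENNReal.tsum_mul_left, D.tsum_coe,
      mul_one, mul_add]
    rfl
  rw [h2]
  apply ENNReal.tsum_le_tsum
  intro T
  rw [← mul_sum, sum_boole]
  apply mul_le_mul_right
  have hm' : ∀ q, (K.filter (fun a => (fun a => rk (M a)) a q ≠ rk M₀ q)).card ≤ m := by
    intro q
    refine le_trans (le_of_eq ?_) (hm q)
    congr
  have := card_good T (rk M₀) (fun a => rk (M a)) K m k (fun q => by
    refine le_trans (le_of_eq ?_) (hm' q)
    congr) Good hk
  exact_mod_cast this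

end Pool.Agent.Y591.MM
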