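import Mathlib

set_option autoImplicit false

/-!
Counting functions whose graph meets a small set in many points.
-/

namespace Pool.Agent.Y591.MM

open Finset
open scoped Classical

variable {c K : ℕ}

theorem card_fix (D : Finset (Fin c × Fin K)) (r : ℕ) (hD : D.card = r) :
    ((univ : Finset (Fin c → Fin K)).filter (fun f => ∀ x ∈ D, f x.1 = x.2)).card ≤
      K ^ (c - r) := by
  by_cases hne : ((univ : Finset (Fin c → Fin K)).filter
      (fun f => ∀ x ∈ D, f x.1 = x.2)).Nonempty
  · obtain ⟨f0, hf0⟩ := hne
    rw [mem_filter] at hf0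
    have hinj : Set.InjOn Prod.fst (D : Set (Fin c × Fin K)) := by
      intro x hx y hy hxy
      apply Prod.ext hxy
      rw [← hf0.2 x hx, ← hf0.2 y hy, hxy]
    have hT : (D.image Prod.fst).card = r := by
      rw [card_image_of_injOn hinj, hD]
    have hcard : Fintype.card ({i : Fin c // i ∉ D.image Prod.fst} → Fin K) = K ^ (c - r) := by
      rw [Fintype.card_fun, Fintype.card_fin,
        Fintype.card_of_subtype (D.image Prod.fst)ᶜ (by intro x; rw [mem_compl]), card_compl, hT,
        Fintype.card_fin]
    rw [← hcard, ← card_univ]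
    apply card_le_card_of_injOn (fun f => fun i : {i : Fin c // i ∉ D.image Prod.fst} => f i.1)
      (fun _ _ => mem_coe.2 (mem_univ _))
    intro f hf f' hf' h
    rw [mem_coe, mem_filter] at hf hf'
    funext i
    by_cases hi : i ∈ D.image Prod.fst
    · rw [mem_image] at hi
      obtain ⟨x, hx, rfl⟩ := hi
      rw [hf.2 x hx, hf'.2 x hx]
    · exact congrFun h ⟨i, hi⟩
  · rw [not_nonempty_iff_eq_empty] at hne
    rw [hne, card_empty]
    exact Nat.zero_le _

/-- few functions have a graph that meets a small set in at least `r` points -/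
theorem card_hits (B : Finset (Fin c × Fin K)) (r b : ℕ) (hB : B.card ≤ b) :
    ((univ : Finset (Fin c → Fin K)).filter
      (fun f => r ≤ (univ.filter (fun i => (i, f i) ∈ B)).card)).card ≤ 2 ^ b * K ^ (c - r) := by
  have hsub : (univ : Finset (Fin c → Fin K)).filter
      (fun f => r ≤ (univ.filter (fun i => (i, f i) ∈ B)).card) ⊆
      (powersetCard r B).biUnion
        (fun D => (univ : Finset (Fin c → Fin K)).filter (fun f => ∀ x ∈ D, f x.1 = x.2)) := by
    intro f hf
    rw [mem_filter] at hf
    obtain ⟨T, hT, hTc⟩ := exists_subset_card_eq hf.2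
    rw [mem_biUnion]
    refine ⟨T.image (fun i => (i, f i)), ?_, ?_⟩
    · rw [mem_powersetCard]
      constructor
      · intro x hx
        rw [mem_image] at hx
        obtain ⟨i, hi, rfl⟩ := hx
        exact (mem_filter.1 (hT hi)).2
      · rw [card_image_of_injective _ (fun i j hij => congrArg Prod.fst hij), hTc]
    · rw [mem_filter]
      refine ⟨mem_univ _, fun x hx => ?_⟩
      rw [mem_image] at hx
      obtain ⟨i, -, rfl⟩ := hx
      rfl
  refine (card_le_card hsub).trans ?_
  refine (card_biUnion_le_card_mul _ _ (K ^ (c - r)) (fun D hD => ?_)).trans ?_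
  · exact card_fix D r (mem_powersetCard.1 hD).2
  · apply Nat.mul_le_mul_right
    rw [card_powersetCard]
    exact (Nat.choose_le_two_pow _ _).trans (Nat.pow_le_pow_right (by norm_num) hB)

end Pool.Agent.Y591.MM
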