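import Mathlib
import Pool.Agent.Results.MP_8f56b8_lc.ExponentialLowerBound

set_option autoImplicit false
set_option linter.unusedSectionVars false

/-!
Matroids given by cardinality constraints whose tight sets are closed under unions, and basic facts
on rank functions of matroids on finite types.
-/

namespace Pool.Agent.Y591.MM

open Finset
open Pool.Agent.Results.MP_8f56b8_lc.ExponentialLowerBound (rk QueryAlg)

section Aug

variable {S κ : Type} [DecidableEq S]

/-- the cardinality constraints -/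
def Cst (P : Finset κ) (U : κ → Finset S) (b : κ → ℕ) (I : Finset S) : Prop :=
  ∀ u ∈ P, (I ∩ U u).card ≤ b u

/-- tight sets are closed under unions -/
def Tight (P : Finset κ) (U : κ → Finset S) (b : κ → ℕ) : Prop :=
  ∀ I : Finset S, Cst P U b I → ∀ u ∈ P, ∀ v ∈ P, (I ∩ U u).card = b u → (I ∩ U v).card = b v →
    ∃ w ∈ P, (I ∩ U w).card = b w ∧ U u ⊆ U w ∧ U v ⊆ U w

theorem Cst.subset {P : Finset κ} {U : κ → Finset S} {b : κ → ℕ} {I J : Finset S}
    (hJ : Cst P U b J) (h : I ⊆ J) : Cst P U b I :=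
  fun u hu => (card_le_card (inter_subset_inter_right h)).trans (hJ u hu)

theorem Cst.aug {P : Finset κ} {U : κ → Finset S} {b : κ → ℕ} (hT : Tight P U b)
    {I J : Finset S} (hI : Cst P U b I) (hJ : Cst P U b J) (hlt : I.card < J.card) :
    ∃ e ∈ J, e ∉ I ∧ Cst P U b (insert e I) := by
  classical
  by_cases hne : (P.filter (fun u => (I ∩ U u).card = b u)).Nonempty
  · obtain ⟨u, hu, hmax⟩ := exists_max_image _ (fun u => (U u).card) hne
    rw [mem_filter] at hu
    -- all tight sets are contained in `U u`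
    have hall : ∀ v ∈ P, (I ∩ U v).card = b v → U v ⊆ U u := by
      intro v hv hv2
      obtain ⟨w, hw, hw2, huw, hvw⟩ := hT I hI u hu.1 v hv hu.2 hv2
      have h1 := hmax w (mem_filter.2 ⟨hw, hw2⟩)
      have h2 : U u = U w := eq_of_subset_of_card_le huw h1
      rw [h2]
      exact hvw
    -- an element outside
    have hex : ∃ e ∈ J \ U u, e ∉ I \ U u := by
      by_contra hcon
      push Not at hcon
      have h1 := card_le_card (fun e he => hcon e he : J \ U u ⊆ I \ U u)
      have h2 := card_inter_add_card_sdiff I (U u)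
      have h3 := card_inter_add_card_sdiff J (U u)
      have h4 := hJ u hu.1
      omega
    obtain ⟨e, he, heI⟩ := hex
    rw [mem_sdiff] at he heI
    have heI' : e ∉ I := fun h => heI ⟨h, he.2⟩
    refine ⟨e, he.1, heI', fun v hv => ?_⟩
    by_cases hev : e ∈ U v
    · have hnt : (I ∩ U v).card ≠ b v := fun h => he.2 (hall v hv h hev)
      have h1 := hI v hv
      have h2 : insert e I ∩ U v ⊆ insert e (I ∩ U v) := by
        intro x hx
        simp only [mem_inter, mem_insert] at hx ⊢
        tauto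
      have h3 := card_le_card h2
      have h4 := card_insert_le e (I ∩ U v)
      omega
    · rw [insert_inter_of_notMem hev]
      exact hI v hv
  · have hnt : ∀ v ∈ P, (I ∩ U v).card ≠ b v := by
      intro v hv h
      exact hne ⟨v, mem_filter.2 ⟨hv, h⟩⟩
    have hex : ∃ e ∈ J, e ∉ I := by
      by_contra hcon
      push Not at hcon
      have h1 := card_le_card (fun e he => hcon e he : J ⊆ I)
      omega
    obtain ⟨e, he, heI⟩ := hex
    refine ⟨e, he, heI, fun v hv => ?_⟩
    have h1 := hI v hv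
    have h0 := hnt v hv
    have h2 : insert e I ∩ U v ⊆ insert e (I ∩ U v) := by
      intro x hx
      simp only [mem_inter, mem_insert] at hx ⊢
      tauto
    have h3 := card_le_card h2
    have h4 := card_insert_le e (I ∩ U v)
    omega

/-- the matroid given by cardinality constraints -/
noncomputable def cstMatroid (P : Finset κ) (U : κ → Finset S) (b : κ → ℕ) (hT : Tight P U b) :
    Matroid S :=
  (IndepMatroid.ofFinset Set.univ (Cst P U b)
    (by intro u _; simp)
    (fun _ _ hJ h => hJ.subset h)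
    (fun _ _ hI hJ h => Cst.aug hT hI hJ h)
    (fun _ _ => Set.subset_univ _)).matroid

theorem cstMatroid_E (P : Finset κ) (U : κ → Finset S) (b : κ → ℕ) (hT : Tight P U b) :
    (cstMatroid P U b hT).E = Set.univ := rfl

theorem cstMatroid_indep (P : Finset κ) (U : κ → Finset S) (b : κ → ℕ) (hT : Tight P U b)
    (I : Finset S) : (cstMatroid P U b hT).Indep (I : Set S) ↔ Cst P U b I := by
  unfold cstMatroid
  rw [IndepMatroid.matroid_indep_iff]
  exact IndepMatroid.ofFinset_indep ..

end Aug

section Rank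

variable {n : ℕ}

theorem rk_cast (M : Matroid (Fin n)) (X : Finset (Fin n)) :
    M.eRk (X : Set (Fin n)) = ((rk M X : ℕ) : ℕ∞) := by
  unfold rk
  rw [ENat.natCast_toNat]
  have := M.eRk_le_encard (X : Set (Fin n))
  rw [Set.encard_coe_eq_coe_finsetCard] at this
  exact ne_top_of_le_ne_top (ENat.natCast_ne_top _) this

theorem le_rk (M : Matroid (Fin n)) {I X : Finset (Fin n)} (hI : M.Indep (I : Set (Fin n)))
    (hIX : I ⊆ X) : I.card ≤ rk M X := by
  have h : ((I.card : ℕ) : ℕ∞) ≤ M.eRk (X : Set (Fin n)) := by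
    rw [Matroid.le_eRk_iff]
    exact ⟨I, by exact_mod_cast hIX, hI, Set.encard_coe_eq_coe_finsetCard I⟩
  rw [rk_cast] at h
  exact_mod_cast h

theorem exists_rk (M : Matroid (Fin n)) (X : Finset (Fin n)) :
    ∃ I ⊆ X, M.Indep (I : Set (Fin n)) ∧ I.card = rk M X := by
  classical
  have h : ((rk M X : ℕ) : ℕ∞) ≤ M.eRk (X : Set (Fin n)) := by rw [rk_cast]
  rw [Matroid.le_eRk_iff] at h
  obtain ⟨I, hIX, hI, hc⟩ := h
  have hfin : I.Finite := Set.toFinite I
  have hc' : ((hfin.toFinset : Finset (Fin n)) : Set (Fin n)) = I := hfin.coe_toFinset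
  refine ⟨hfin.toFinset, ?_, ?_, ?_⟩
  · rw [← hc'] at hIX
    exact_mod_cast hIX
  · rw [hc']; exact hI
  · rw [← hc', Set.encard_coe_eq_coe_finsetCard] at hc
    exact_mod_cast hc

theorem rk_le (M : Matroid (Fin n)) (X : Finset (Fin n)) (b : ℕ)
    (h : ∀ I ⊆ X, M.Indep (I : Set (Fin n)) → I.card ≤ b) : rk M X ≤ b := by
  obtain ⟨I, hIX, hI, hc⟩ := exists_rk M X
  rw [← hc]
  exact h I hIX hI

theorem rk_mono (M : Matroid (Fin n)) {X Y : Finset (Fin n)} (h : X ⊆ Y) : rk M X ≤ rk M Y :=
  rk_le M X _ (fun _ hIX hI => le_rk M hI (hIX.trans h))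

theorem rk_submod (M : Matroid (Fin n)) (X Y : Finset (Fin n)) :
    rk M (X ∩ Y) + rk M (X ∪ Y) ≤ rk M X + rk M Y := by
  have h := M.eRk_inter_add_eRk_union_le (X : Set (Fin n)) (Y : Set (Fin n))
  rw [← Finset.coe_inter, ← Finset.coe_union, rk_cast, rk_cast, rk_cast, rk_cast] at h
  exact_mod_cast h

end Rank

end Pool.Agent.Y591.MM
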