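import Mathlib
import Pool.Agent.Y591.MM.Mat

set_option autoImplicit false
set_option linter.unusedSectionVars false

/-!
The hard matroids for the matroid median problem.
-/

namespace Pool.Agent.Y591.MM

open Finset
open Pool.Agent.Results.MP_8f56b8_lc.ExponentialLowerBound (rk QueryAlg)

variable {n : ℕ} {ι : Type} [Fintype ι] [DecidableEq ι]

/-- number of elements of `I` in the block `j` -/
def cnt (g : Fin n → ι) (I : Finset (Fin n)) (j : ι) : ℕ := (I.filter (fun x => g x = j)).card

/-- number of elements of `I` in the blocks of `J` -/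
def num (g : Fin n → ι) (I : Finset (Fin n)) (J : Finset ι) : ℕ := ∑ j ∈ J, cnt g I j

/-- the block `j` -/
def blk (g : Fin n → ι) (j : ι) : Finset (Fin n) := univ.filter (fun x => g x = j)

theorem num_union_inter (g : Fin n → ι) (I : Finset (Fin n)) (J K : Finset ι) :
    num g I (J ∪ K) + num g I (J ∩ K) = num g I J + num g I K := sum_union_inter

theorem num_empty (g : Fin n → ι) (I : Finset (Fin n)) : num g I ∅ = 0 := rfl

theorem card_eq_num (g : Fin n → ι) (I : Finset (Fin n)) : I.card = num g I univ :=
  card_eq_sum_card_fiberwise (f := g) (t := univ) (fun x _ => by simp)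

theorem card_inter_filter (g : Fin n → ι) (I : Finset (Fin n)) (J : Finset ι) :
    (I ∩ univ.filter (fun x => g x ∈ J)).card = num g I J := by
  rw [card_eq_sum_card_fiberwise (f := g) (t := J) (fun x hx => by
    rw [mem_coe, mem_inter, mem_filter] at hx
    exact hx.2.2)]
  unfold num cnt
  apply sum_congr rfl
  intro j hj
  congr 1
  ext x
  rw [mem_filter, mem_filter, mem_inter, mem_filter]
  constructor
  · rintro ⟨⟨h1, -⟩, h2⟩; exact ⟨h1, h2⟩
  · rintro ⟨h1, h2⟩; exact ⟨⟨h1, mem_univ _, h2 ▸ hj⟩, h2⟩

theorem cnt_mono (g : Fin n → ι) {I X : Finset (Fin n)} (h : I ⊆ X) (j : ι) :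
    cnt g I j ≤ cnt g X j := card_le_card (filter_subset_filter _ h)

/-- the constraints of the reference matroid -/
def Ind0 (g : Fin n → ι) (c : ℕ) (I : Finset (Fin n)) : Prop :=
  ∀ J : Finset ι, J.Nonempty → num g I J ≤ (J.card + 1) * c

/-- the constraints of the matroid with the hidden set `A` in the block `o` -/
def IndA (g : Fin n → ι) (o : ι) (c s : ℕ) (A : Finset (Fin n)) (I : Finset (Fin n)) : Prop :=
  Ind0 g c I ∧ ∀ J : Finset ι, J.Nonempty → o ∉ J →
    num g I J + (I ∩ A).card ≤ (J.card + 1) * c + s

/-- the sets of the constraints -/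
def setU (g : Fin n → ι) (A : Finset (Fin n)) (u : Finset ι × Bool) : Finset (Fin n) :=
  univ.filter (fun x => g x ∈ u.1) ∪ (if u.2 then A else ∅)

/-- the bounds of the constraints -/
def bndB (c s : ℕ) (u : Finset ι × Bool) : ℕ := (u.1.card + 1) * c + (if u.2 then s else 0)

/-- the indices of the constraints -/
def indP (o : ι) : Finset (Finset ι × Bool) :=
  univ.filter (fun u => u.1.Nonempty ∧ (u.2 = true → o ∉ u.1))

theorem card_setU_false (g : Fin n → ι) (A I : Finset (Fin n)) (J : Finset ι) :
    (I ∩ setU g A (J, false)).card = num g I J := by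
  unfold setU
  simp only [Bool.false_eq_true, if_false, union_empty]
  exact card_inter_filter g I J

theorem card_setU_true (g : Fin n → ι) (o : ι) (A I : Finset (Fin n)) (hA : ∀ x ∈ A, g x = o)
    (J : Finset ι) (hJ : o ∉ J) :
    (I ∩ setU g A (J, true)).card = num g I J + (I ∩ A).card := by
  unfold setU
  simp only [if_true]
  rw [inter_union_distrib_left, card_union_of_disjoint, card_inter_filter]
  rw [disjoint_left]
  intro x hx hx2
  rw [mem_inter, mem_filter] at hx
  rw [mem_inter] at hx2
  have := hA x hx2.2
  rw [this] at hx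
  exact hJ hx.2.2

theorem cst_iff (g : Fin n → ι) (o : ι) (c s : ℕ) (A I : Finset (Fin n))
    (hA : ∀ x ∈ A, g x = o) :
    Cst (indP o) (setU g A) (bndB c s) I ↔ IndA g o c s A I := by
  constructor
  · intro h
    refine ⟨fun J hJ => ?_, fun J hJ hoJ => ?_⟩
    · have := h (J, false) (by simp [indP, hJ])
      rw [card_setU_false] at this
      simpa [bndB] using this
    · have := h (J, true) (by simp [indP, hJ, hoJ])
      rw [card_setU_true g o A I hA J hoJ] at this
      simpa [bndB] using this
  · rintro ⟨h1, h2⟩ ⟨J, f⟩ hu
    simp only [indP, mem_filter, mem_univ, true_and] at hu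
    cases f
    · rw [card_setU_false]
      simpa [bndB] using h1 J hu.1
    · have hoJ := hu.2 rfl
      rw [card_setU_true g o A I hA J hoJ]
      simpa [bndB] using h2 J hu.1 hoJ

theorem setU_mono (g : Fin n → ι) (A : Finset (Fin n)) {J K : Finset ι} (h : J ⊆ K) (f : Bool) :
    setU g A (J, f) ⊆ setU g A (K, f) := by
  unfold setU
  apply union_subset_union _ (Subset.refl _)
  intro x hx
  rw [mem_filter] at hx ⊢
  exact ⟨hx.1, h hx.2⟩

theorem setU_false_subset (g : Fin n → ι) (A : Finset (Fin n)) {J K : Finset ι} (h : J ⊆ K)
    (f : Bool) : setU g A (J, false) ⊆ setU g A (K, f) := by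
  refine (setU_mono g A h false).trans ?_
  unfold setU
  simp only [Bool.false_eq_true, if_false, union_empty]
  exact subset_union_left

theorem setU_true_subset (g : Fin n → ι) (o : ι) (A : Finset (Fin n)) (hA : ∀ x ∈ A, g x = o)
    {J K : Finset ι} (h : J ⊆ K) (ho : o ∈ K) : setU g A (J, true) ⊆ setU g A (K, false) := by
  unfold setU
  simp only [Bool.false_eq_true, if_false, union_empty, if_true]
  apply union_subset
  · intro x hx
    rw [mem_filter] at hx ⊢
    exact ⟨hx.1, h hx.2⟩
  · intro x hx
    rw [mem_filter]
    exact ⟨mem_univ _, by rw [hA x hx]; exact ho⟩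

theorem card_union_add_inter (J K : Finset ι) (c : ℕ) :
    ((J ∪ K).card + 1) * c + ((J ∩ K).card + 1) * c = (J.card + 1) * c + (K.card + 1) * c := by
  have := card_union_add_card_inter J K
  have h2 : ((J ∪ K).card + 1) + ((J ∩ K).card + 1) = (J.card + 1) + (K.card + 1) := by omega
  rw [← add_mul, h2, add_mul]

theorem tight (g : Fin n → ι) (o : ι) (c s : ℕ) (A : Finset (Fin n))
    (hA : ∀ x ∈ A, g x = o) (hAc : A.card ≤ c) :
    Tight (indP o) (setU g A) (bndB c s) := by
  intro I hI u hu v hv hut hvt
  rw [cst_iff g o c s A I hA] at hI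
  obtain ⟨h1, h2⟩ := hI
  obtain ⟨J, f⟩ := u
  obtain ⟨K, f'⟩ := v
  simp only [indP, mem_filter, mem_univ, true_and] at hu hv
  have hNE : (J ∪ K).Nonempty := hu.1.mono subset_union_left
  have hN := num_union_inter g I J K
  have hC := card_union_add_inter J K c
  have h1' : num g I (J ∩ K) ≤ ((J ∩ K).card + 1) * c := by
    by_cases hne : (J ∩ K).Nonempty
    · exact h1 _ hne
    · rw [not_nonempty_iff_eq_empty] at hne
      rw [hne, num_empty]
      exact Nat.zero_le _
  have h2' : o ∉ J ∩ K → num g I (J ∩ K) + (I ∩ A).card ≤ ((J ∩ K).card + 1) * c + s := by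
    intro ho
    by_cases hne : (J ∩ K).Nonempty
    · exact h2 _ hne ho
    · rw [not_nonempty_iff_eq_empty] at hne
      rw [hne, num_empty, card_empty]
      have := card_le_card (inter_subset_right (s₁ := I) (s₂ := A))
      omega
  have hU := h1 (J ∪ K) hNE
  cases f
  · cases f'
    · -- both visible
      refine ⟨(J ∪ K, false), ?_, ?_, setU_false_subset g A subset_union_left _,
        setU_false_subset g A subset_union_right _⟩
      · simp [indP, hNE]
      · rw [card_setU_false] at hut hvt ⊢
        simp only [bndB, Bool.false_eq_true, if_false, add_zero] at hut hvt ⊢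
        omega
    · have hoK := hv.2 rfl
      by_cases hoJ : o ∈ J
      · refine ⟨(J ∪ K, false), ?_, ?_, setU_false_subset g A subset_union_left _,
          setU_true_subset g o A hA subset_union_right (mem_union_left _ hoJ)⟩
        · simp [indP, hNE]
        · rw [card_setU_false] at hut ⊢
          rw [card_setU_true g o A I hA K hoK] at hvt
          simp only [bndB, Bool.false_eq_true, if_false, add_zero, if_true] at hut hvt ⊢
          have := h2' (fun h => hoK (mem_of_mem_inter_right h))
          omega
      · have hoU : o ∉ J ∪ K := by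
          rw [mem_union]
          rintro (h | h)
          · exact hoJ h
          · exact hoK h
        have h3 := h2 (J ∪ K) hNE hoU
        refine ⟨(J ∪ K, true), ?_, ?_, setU_false_subset g A subset_union_left _,
          setU_mono g A subset_union_right _⟩
        · simp only [indP, mem_filter, mem_univ, true_and]
          exact ⟨hNE, fun _ => hoU⟩
        · rw [card_setU_false] at hut
          rw [card_setU_true g o A I hA K hoK] at hvt
          rw [card_setU_true g o A I hA (J ∪ K) hoU]
          simp only [bndB, Bool.false_eq_true, if_false, add_zero, if_true] at hut hvt ⊢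
          omega
  · have hoJ := hu.2 rfl
    cases f'
    · by_cases hoK : o ∈ K
      · refine ⟨(J ∪ K, false), ?_, ?_,
          setU_true_subset g o A hA subset_union_left (mem_union_right _ hoK),
          setU_false_subset g A subset_union_right _⟩
        · simp [indP, hNE]
        · rw [card_setU_false] at hvt ⊢
          rw [card_setU_true g o A I hA J hoJ] at hut
          simp only [bndB, Bool.false_eq_true, if_false, add_zero, if_true] at hut hvt ⊢
          have := h2' (fun h => hoJ (mem_of_mem_inter_left h))
          omega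
      · have hoU : o ∉ J ∪ K := by
          rw [mem_union]
          rintro (h | h)
          · exact hoJ h
          · exact hoK h
        have h3 := h2 (J ∪ K) hNE hoU
        refine ⟨(J ∪ K, true), ?_, ?_, setU_mono g A subset_union_left _,
          setU_false_subset g A subset_union_right _⟩
        · simp only [indP, mem_filter, mem_univ, true_and]
          exact ⟨hNE, fun _ => hoU⟩
        · rw [card_setU_false] at hvt
          rw [card_setU_true g o A I hA J hoJ] at hut
          rw [card_setU_true g o A I hA (J ∪ K) hoU]
          simp only [bndB, Bool.false_eq_true, if_false, add_zero, if_true] at hut hvt ⊢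
          omega
    · have hoK := hv.2 rfl
      have hoU : o ∉ J ∪ K := by
        rw [mem_union]
        rintro (h | h)
        · exact hoJ h
        · exact hoK h
      have h3 := h2 (J ∪ K) hNE hoU
      refine ⟨(J ∪ K, true), ?_, ?_, setU_mono g A subset_union_left _,
        setU_mono g A subset_union_right _⟩
      · simp only [indP, mem_filter, mem_univ, true_and]
        exact ⟨hNE, fun _ => hoU⟩
      · rw [card_setU_true g o A I hA J hoJ] at hut
        rw [card_setU_true g o A I hA K hoK] at hvt
        rw [card_setU_true g o A I hA (J ∪ K) hoU]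
        simp only [bndB, if_true] at hut hvt ⊢
        have := h2' (fun h => hoJ (mem_of_mem_inter_left h))
        omega

/-- the matroid with the hidden set `A` -/
noncomputable def hid (g : Fin n → ι) (o : ι) (c s : ℕ) (A : Finset (Fin n))
    (hA : ∀ x ∈ A, g x = o) (hAc : A.card ≤ c) : Matroid (Fin n) :=
  cstMatroid (indP o) (setU g A) (bndB c s) (tight g o c s A hA hAc)

theorem hid_E (g : Fin n → ι) (o : ι) (c s : ℕ) (A : Finset (Fin n))
    (hA : ∀ x ∈ A, g x = o) (hAc : A.card ≤ c) : (hid g o c s A hA hAc).E = Set.univ := rfl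

theorem hid_indep (g : Fin n → ι) (o : ι) (c s : ℕ) (A : Finset (Fin n))
    (hA : ∀ x ∈ A, g x = o) (hAc : A.card ≤ c) (I : Finset (Fin n)) :
    (hid g o c s A hA hAc).Indep (I : Set (Fin n)) ↔ IndA g o c s A I := by
  unfold hid
  rw [cstMatroid_indep, cst_iff g o c s A I hA]

/-- the reference matroid, without hidden set -/
noncomputable def ref (g : Fin n → ι) (o : ι) (c s : ℕ) : Matroid (Fin n) :=
  hid g o c s ∅ (by simp) (by simp)

theorem ref_indep (g : Fin n → ι) (o : ι) (c s : ℕ) (I : Finset (Fin n)) :
    (ref g o c s).Indep (I : Set (Fin n)) ↔ Ind0 g c I := by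
  unfold ref
  rw [hid_indep]
  constructor
  · exact fun h => h.1
  · intro h
    refine ⟨h, fun J hJ _ => ?_⟩
    have := h J hJ
    simp
    omega

end Pool.Agent.Y591.MM
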