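import Mathlib
import Pool.Agent.Y591.MM.Hid

set_option autoImplicit false
set_option linter.unusedSectionVars false

/-!
Ranks in the hard matroids.
-/

namespace Pool.Agent.Y591.MM

open Finset
open Pool.Agent.Results.MP_8f56b8_lc.ExponentialLowerBound (rk QueryAlg)

variable {n : ℕ} {ι : Type} [Fintype ι] [DecidableEq ι]

theorem exists_counts (g : Fin n → ι) (X : Finset (Fin n)) (t : ι → ℕ)
    (ht : ∀ j, t j ≤ cnt g X j) : ∃ I ⊆ X, ∀ j, cnt g I j = t j := by
  have h : ∀ j, ∃ T : Finset (Fin n), T ⊆ X.filter (fun x => g x = j) ∧ T.card = t j := by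
    intro j
    exact exists_subset_card_eq (ht j)
  choose T hT hTc using h
  refine ⟨univ.biUnion T, ?_, fun j => ?_⟩
  · intro x hx
    rw [mem_biUnion] at hx
    obtain ⟨j, -, hx⟩ := hx
    exact mem_of_mem_filter _ (hT j hx)
  · unfold cnt
    rw [← hTc j]
    congr 1
    ext x
    rw [mem_filter, mem_biUnion]
    constructor
    · rintro ⟨⟨i, -, hx⟩, hg⟩
      have h1 := (mem_filter.1 (hT i hx)).2
      rw [hg] at h1
      rw [h1]
      exact hx
    · intro hx
      exact ⟨⟨j, mem_univ _, hx⟩, (mem_filter.1 (hT j hx)).2⟩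

theorem cnt_blk (g : Fin n → ι) (j : ι) : cnt g (blk g j) j = (blk g j).card := by
  unfold cnt blk
  rw [filter_filter]
  simp

theorem ref_lower (g : Fin n → ι) (o : ι) (c s : ℕ) (hF : ∀ j, 2 * c ≤ (blk g j).card) (i : ι)
    (H : Finset (Fin n)) :
    2 * c + ∑ j ∈ univ.erase i, min (cnt g H j) c ≤ rk (ref g o c s) (blk g i ∪ H) := by
  obtain ⟨I, hI, hIc⟩ := exists_counts g (blk g i ∪ H)
    (fun j => if j = i then 2 * c else min (cnt g H j) c) (by
      intro j
      by_cases hj : j = i
      · rw [if_pos hj, hj]
        refine (hF i).trans ?_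
        rw [← cnt_blk]
        exact cnt_mono g subset_union_left i
      · rw [if_neg hj]
        exact (min_le_left _ _).trans (cnt_mono g subset_union_right j))
  have hcard : I.card = 2 * c + ∑ j ∈ univ.erase i, min (cnt g H j) c := by
    rw [card_eq_num g I]
    unfold num
    rw [← add_sum_erase _ _ (mem_univ i), hIc i, if_pos rfl]
    congr 1
    apply sum_congr rfl
    intro j hj
    rw [hIc j, if_neg (ne_of_mem_erase hj)]
  rw [← hcard]
  apply le_rk _ _ hI
  rw [ref_indep]
  intro J _
  unfold num
  calc ∑ j ∈ J, cnt g I j ≤ ∑ j ∈ J, (c + if j = i then c else 0) := by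
        apply sum_le_sum
        intro j _
        rw [hIc j]
        split_ifs
        · omega
        · exact (min_le_right _ _).trans (by omega)
    _ = J.card * c + ∑ j ∈ J, (if j = i then c else 0) := by
        rw [sum_add_distrib, sum_const, smul_eq_mul]
    _ ≤ J.card * c + c := by
        rw [sum_ite_eq']
        split_ifs <;> omega
    _ = (J.card + 1) * c := by ring

theorem ref_upper (g : Fin n → ι) (o : ι) (c s : ℕ) (H : Finset (Fin n)) :
    rk (ref g o c s) H ≤ 2 * ∑ j, min (cnt g H j) c := by
  apply rk_le
  intro I hIH hI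
  rw [ref_indep] at hI
  have hle : ∀ j, cnt g I j ≤ cnt g H j := fun j => cnt_mono g hIH j
  rw [card_eq_num g I]
  by_cases hne : (univ.filter (fun j => c ≤ cnt g H j)).Nonempty
  · set J := univ.filter (fun j => c ≤ cnt g H j) with hJ
    have h1 := hI J hne
    have h2 : num g I univ = num g I J + num g I Jᶜ := by
      unfold num
      rw [sum_add_sum_compl]
    have h3 : ∑ j, min (cnt g H j) c = ∑ j ∈ J, min (cnt g H j) c + ∑ j ∈ Jᶜ, min (cnt g H j) c := by
      rw [sum_add_sum_compl]
    have h4 : ∑ j ∈ J, min (cnt g H j) c = J.card * c := by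
      rw [← smul_eq_mul, ← sum_const]
      apply sum_congr rfl
      intro j hj
      rw [hJ, mem_filter] at hj
      exact min_eq_right hj.2
    have h5 : num g I Jᶜ ≤ ∑ j ∈ Jᶜ, min (cnt g H j) c := by
      unfold num
      apply sum_le_sum
      intro j hj
      rw [mem_compl, hJ, mem_filter] at hj
      have : cnt g H j < c := by
        by_contra hcon
        exact hj ⟨mem_univ _, not_lt.1 hcon⟩
      rw [min_eq_left this.le]
      exact hle j
    have h6 : 1 ≤ J.card := card_pos.2 hne
    have h7 : c ≤ J.card * c := Nat.le_mul_of_pos_left _ h6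
    rw [h2, h3, h4]
    have h8 : (J.card + 1) * c = J.card * c + c := by ring
    omega
  · have h1 : num g I univ ≤ ∑ j, min (cnt g H j) c := by
      unfold num
      apply sum_le_sum
      intro j _
      have : cnt g H j < c := by
        by_contra hcon
        exact hne ⟨j, by rw [mem_filter]; exact ⟨mem_univ _, not_lt.1 hcon⟩⟩
      rw [min_eq_left this.le]
      exact hle j
    omega

theorem ref_bound (g : Fin n → ι) (o : ι) (c s : ℕ) (hF : ∀ j, 2 * c ≤ (blk g j).card)
    (H : Finset (Fin n)) :
    4 * Fintype.card ι * c + (Fintype.card ι - 1) * rk (ref g o c s) H ≤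
      2 * ∑ i, rk (ref g o c s) (blk g i ∪ H) := by
  set u := ∑ j, min (cnt g H j) c with hu
  have h1 : ∑ i : ι, (2 * c + ∑ j ∈ univ.erase i, min (cnt g H j) c) ≤
      ∑ i, rk (ref g o c s) (blk g i ∪ H) :=
    sum_le_sum (fun i _ => ref_lower g o c s hF i H)
  have h2 : ∑ i : ι, ∑ j ∈ univ.erase i, min (cnt g H j) c + u = Fintype.card ι * u := by
    have : ∀ i : ι, min (cnt g H i) c + ∑ j ∈ univ.erase i, min (cnt g H j) c = u :=
      fun i => add_sum_erase univ (fun j => min (cnt g H j) c) (mem_univ i)
    calc ∑ i : ι, ∑ j ∈ univ.erase i, min (cnt g H j) c + u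
        = ∑ i : ι, (min (cnt g H i) c + ∑ j ∈ univ.erase i, min (cnt g H j) c) := by
          rw [sum_add_distrib, add_comm]
      _ = ∑ _i : ι, u := sum_congr rfl (fun i _ => this i)
      _ = Fintype.card ι * u := by rw [sum_const, card_univ, smul_eq_mul]
  rw [sum_add_distrib, sum_const, card_univ, smul_eq_mul] at h1
  have h3 := ref_upper g o c s H
  rw [← hu] at h3
  have hpos : 1 ≤ Fintype.card ι := Fintype.card_pos_iff.2 ⟨o⟩
  obtain ⟨l, hl⟩ : ∃ l, Fintype.card ι = l + 1 := ⟨Fintype.card ι - 1, by omega⟩
  rw [hl] at h1 h2 ⊢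
  have h4 : ∑ i : ι, ∑ j ∈ univ.erase i, min (cnt g H j) c = l * u := by
    have : (l + 1) * u = l * u + u := by ring
    omega
  rw [h4] at h1
  have h5 : (l + 1 - 1) * rk (ref g o c s) H ≤ l * (2 * u) := by
    rw [Nat.add_sub_cancel]
    exact Nat.mul_le_mul_left _ h3
  nlinarith

theorem rk_hid_le (g : Fin n → ι) (o : ι) (c s : ℕ) (A : Finset (Fin n))
    (hA : ∀ x ∈ A, g x = o) (hAc : A.card ≤ c) (B : Finset (Fin n)) :
    rk (hid g o c s A hA hAc) B ≤ rk (ref g o c s) B := by
  apply rk_le
  intro I hIB hI
  rw [hid_indep] at hI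
  exact le_rk _ ((ref_indep g o c s I).2 hI.1) hIB

/-- a set that meets `A` in few elements, or that has enough elements of the block of `A` outside
of `A`, does not distinguish the two matroids -/
theorem rk_hid_eq (g : Fin n → ι) (o : ι) (c s : ℕ) (A : Finset (Fin n))
    (hA : ∀ x ∈ A, g x = o) (hAc : A.card ≤ c) (B : Finset (Fin n))
    (hB : (B ∩ A).card ≤ s ∨ c ≤ s + ((B.filter (fun x => g x = o)) \ A).card) :
    rk (hid g o c s A hA hAc) B = rk (ref g o c s) B := by
  apply le_antisymm (rk_hid_le g o c s A hA hAc B)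
  classical
  -- a good independent set of the reference matroid
  have hne : (B.powerset.filter (fun I => Ind0 g c I ∧ I.card = rk (ref g o c s) B)).Nonempty := by
    obtain ⟨I, hI1, hI2, hI3⟩ := exists_rk (ref g o c s) B
    exact ⟨I, by rw [mem_filter, mem_powerset]; exact ⟨hI1, (ref_indep g o c s I).1 hI2, hI3⟩⟩
  obtain ⟨I, hI, hmin⟩ := exists_min_image _ (fun I => (I ∩ A).card) hne
  rw [mem_filter, mem_powerset] at hI
  obtain ⟨hIB, hI0, hIc⟩ := hI
  have hIA : IndA g o c s A I := by
    refine ⟨hI0, fun J hJ hoJ => ?_⟩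
    by_contra hcon
    push Not at hcon
    have hJ1 := hI0 J hJ
    rcases hB with hB | hB
    · have := card_le_card (inter_subset_inter_right hIB (u := A))
      omega
    · -- exchange
      have h1 := hI0 (insert o J) (insert_nonempty _ _)
      have h2 : num g I (insert o J) = cnt g I o + num g I J := sum_insert hoJ
      rw [h2, card_insert_of_notMem hoJ] at h1
      have h3 : cnt g I o = (I ∩ A).card + ((I.filter (fun x => g x = o)) \ A).card := by
        unfold cnt
        rw [← card_inter_add_card_sdiff (I.filter (fun x => g x = o)) A]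
        congr 2
        ext x
        rw [mem_inter, mem_filter, mem_inter]
        constructor
        · rintro ⟨⟨h, -⟩, h'⟩; exact ⟨h, h'⟩
        · rintro ⟨h, h'⟩; exact ⟨⟨h, hA x h'⟩, h'⟩
      have h4 : (J.card + 1 + 1) * c = (J.card + 1) * c + c := by ring
      have hlt : ((I.filter (fun x => g x = o)) \ A).card <
          ((B.filter (fun x => g x = o)) \ A).card := by omega
      obtain ⟨x, hx, hxI⟩ : ∃ x ∈ (B.filter (fun x => g x = o)) \ A,
          x ∉ (I.filter (fun x => g x = o)) \ A := by
        by_contra hno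
        push Not at hno
        have := card_le_card (fun x hx => hno x hx :
          (B.filter (fun x => g x = o)) \ A ⊆ (I.filter (fun x => g x = o)) \ A)
        omega
      rw [mem_sdiff, mem_filter] at hx hxI
      have hxI' : x ∉ I := fun h => hxI ⟨⟨h, hx.1.2⟩, hx.2⟩
      obtain ⟨a, ha⟩ : (I ∩ A).Nonempty := by
        rw [← card_pos]
        by_contra hz
        have : (I ∩ A).card = 0 := by omega
        omega
      rw [mem_inter] at ha
      have hga : g a = o := hA a ha.2
      have hxa : x ≠ a := fun h => hx.2 (h ▸ ha.2)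
      have hxe : x ∉ I.erase a := fun h => hxI' (mem_of_mem_erase h)
      have hcnt : ∀ j, cnt g (insert x (I.erase a)) j = cnt g I j := by
        intro j
        unfold cnt
        by_cases hj : o = j
        · have e1 : (insert x (I.erase a)).filter (fun y => g y = j) =
              insert x ((I.filter (fun y => g y = j)).erase a) := by
            ext y
            simp only [mem_filter, mem_insert, mem_erase]
            constructor
            · rintro ⟨h | ⟨h, h'⟩, h''⟩
              · left; exact h
              · right; exact ⟨h, h', h''⟩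
            · rintro (h | ⟨h, h', h''⟩)
              · exact ⟨Or.inl h, by rw [h, hx.1.2]; exact hj⟩
              · exact ⟨Or.inr ⟨h, h'⟩, h''⟩
          have h5 : a ∈ I.filter (fun y => g y = j) := by
            rw [mem_filter]; exact ⟨ha.1, hga.trans hj⟩
          rw [e1, card_insert_of_notMem, card_erase_of_mem h5]
          · have := card_pos.2 ⟨a, h5⟩
            omega
          · intro h
            exact hxI' (mem_of_mem_filter _ (mem_of_mem_erase h))
        · congr 1
          ext y
          simp only [mem_filter, mem_insert, mem_erase]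
          constructor
          · rintro ⟨h | ⟨h, h'⟩, h''⟩
            · exact absurd (by rw [← h'', h, hx.1.2]) hj
            · exact ⟨h', h''⟩
          · rintro ⟨h, h'⟩
            refine ⟨Or.inr ⟨?_, h⟩, h'⟩
            rintro rfl
            exact hj (hga.symm.trans h')
      have hmem : insert x (I.erase a) ∈
          B.powerset.filter (fun I => Ind0 g c I ∧ I.card = rk (ref g o c s) B) := by
        rw [mem_filter, mem_powerset]
        refine ⟨?_, ?_, ?_⟩
        · intro y hy
          rcases mem_insert.1 hy with h | h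
          · rw [h]; exact hx.1.1
          · exact hIB (mem_of_mem_erase h)
        · intro K hK
          have : num g (insert x (I.erase a)) K = num g I K := by
            unfold num
            exact sum_congr rfl (fun j _ => hcnt j)
          rw [this]
          exact hI0 K hK
        · rw [card_insert_of_notMem hxe, card_erase_of_mem ha.1, ← hIc]
          have := card_pos.2 ⟨a, ha.1⟩
          omega
      have h6 := hmin _ hmem
      have h7 : insert x (I.erase a) ∩ A = (I ∩ A).erase a := by
        ext y
        simp only [mem_inter, mem_insert, mem_erase]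
        constructor
        · rintro ⟨h | ⟨h, h'⟩, h''⟩
          · rw [h] at h''; exact absurd h'' hx.2
          · exact ⟨h, h', h''⟩
        · rintro ⟨h, h', h''⟩
          exact ⟨Or.inr ⟨h, h'⟩, h''⟩
      have h8 : a ∈ I ∩ A := mem_inter.2 ha
      have h9 := card_pos.2 ⟨a, h8⟩
      have h10 : (insert x (I.erase a) ∩ A).card = (I ∩ A).card - 1 := by
        rw [h7, card_erase_of_mem h8]
      have h11 : (I ∩ A).card ≤ (insert x (I.erase a) ∩ A).card := h6
      omega
  rw [← hIc]
  exact le_rk _ ((hid_indep g o c s A hA hAc I).2 hIA) hIB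

/-- the rank of a block -/
theorem rk_ref_blk (g : Fin n → ι) (o : ι) (c s : ℕ) (hF : ∀ j, 2 * c ≤ (blk g j).card) (i : ι) :
    rk (ref g o c s) (blk g i) = 2 * c := by
  apply le_antisymm
  · apply rk_le
    intro I hI hI2
    rw [ref_indep] at hI2
    have h1 := hI2 {i} (singleton_nonempty _)
    have h2 : num g I {i} = I.card := by
      unfold num cnt
      rw [sum_singleton]
      congr 1
      apply filter_true_of_mem
      intro x hx
      exact (mem_filter.1 (hI hx)).2
    rw [h2, card_singleton] at h1
    omega
  · have := ref_lower g o c s hF i ∅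
    rw [union_empty] at this
    omega

theorem rk_hid_blk (g : Fin n → ι) (o : ι) (c s : ℕ) (hF : ∀ j, 2 * c ≤ (blk g j).card)
    (A : Finset (Fin n)) (hA : ∀ x ∈ A, g x = o) (hAc : A.card ≤ c) (i : ι) :
    rk (hid g o c s A hA hAc) (blk g i) = 2 * c := by
  rw [rk_hid_eq, rk_ref_blk g o c s hF i]
  by_cases hi : i = o
  · right
    have h1 : (blk g i).filter (fun x => g x = o) = blk g o := by
      rw [hi]
      unfold blk
      rw [filter_filter]
      simp
    rw [h1]
    have h2 := hF o
    have h3 := le_card_sdiff A (blk g o)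
    omega
  · left
    have : blk g i ∩ A = ∅ := by
      rw [← disjoint_iff_inter_eq_empty, disjoint_left]
      intro x hx hxA
      have h1 := (mem_filter.1 hx).2
      rw [hA x hxA] at h1
      exact hi h1.symm
    rw [this, card_empty]
    exact Nat.zero_le _

theorem rk_hid_self (g : Fin n → ι) (o : ι) (c s : ℕ) (A : Finset (Fin n))
    (hA : ∀ x ∈ A, g x = o) (hAc : A.card ≤ c) : rk (hid g o c s A hA hAc) A = A.card := by
  apply le_antisymm
  · exact rk_le _ _ _ (fun I hI _ => card_le_card hI)
  · apply le_rk _ _ (Subset.refl _)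
    rw [hid_indep]
    refine ⟨fun J hJ => ?_, fun J hJ hoJ => ?_⟩
    · rw [← card_inter_filter]
      have h1 := card_le_card (inter_subset_left (s₁ := A)
        (s₂ := (univ.filter (fun x => g x ∈ J) : Finset (Fin n))))
      have h2 : c ≤ (J.card + 1) * c := Nat.le_mul_of_pos_left _ (by omega)
      omega
    · have h0 : num g A J = 0 := by
        unfold num cnt
        apply sum_eq_zero
        intro j hj
        rw [card_eq_zero, filter_eq_empty_iff]
        intro x hx h
        rw [hA x hx] at h
        exact hoJ (h ▸ hj)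
      rw [h0, inter_self]
      have h2 : c ≤ (J.card + 1) * c := Nat.le_mul_of_pos_left _ (by omega)
      omega

theorem rk_hid_union_self (g : Fin n → ι) (o : ι) (c s : ℕ) (A : Finset (Fin n))
    (hA : ∀ x ∈ A, g x = o) (hAc : A.card ≤ c) :
    rk (hid g o c s A hA hAc) (blk g o ∪ A) ≤ 2 * c := by
  apply rk_le
  intro I hI hI2
  rw [hid_indep] at hI2
  have h1 := hI2.1 {o} (singleton_nonempty _)
  have h2 : num g I {o} = I.card := by
    unfold num cnt
    rw [sum_singleton]
    congr 1
    apply filter_true_of_mem
    intro x hx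
    rcases mem_union.1 (hI hx) with h | h
    · exact (mem_filter.1 h).2
    · exact hA x h
  rw [h2, card_singleton] at h1
  omega

theorem rk_hid_union (g : Fin n → ι) (o : ι) (c s : ℕ) (A : Finset (Fin n))
    (hA : ∀ x ∈ A, g x = o) (hAc : A.card ≤ c) (i : ι) (hi : i ≠ o) :
    rk (hid g o c s A hA hAc) (blk g i ∪ A) ≤ 2 * c + s := by
  apply rk_le
  intro I hI hI2
  rw [hid_indep] at hI2
  have h1 := hI2.2 {i} (singleton_nonempty _) (by rw [mem_singleton]; exact fun h => hi h.symm)
  have h2 : I.card ≤ num g I {i} + (I ∩ A).card := by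
    unfold num cnt
    rw [sum_singleton]
    refine le_trans (card_le_card ?_) (card_union_le _ _)
    intro x hx
    rw [mem_union, mem_filter, mem_inter]
    rcases mem_union.1 (hI hx) with h | h
    · left; exact ⟨hx, (mem_filter.1 h).2⟩
    · right; exact ⟨hx, h⟩
  rw [card_singleton] at h1
  omega

end Pool.Agent.Y591.MM
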