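import Mathlib
import Pool.Agent.Y591.MM.Defs
import Pool.Agent.Y591.MM.Rnk

set_option autoImplicit false

/-!
The costs in the hard instances, and the upper bound `2 - 2 / k`.
-/

namespace Pool.Agent.Y591.MM

open Finset
open Pool.Agent.Results.MP_8f56b8_lc.ExponentialLowerBound (rk QueryAlg)

variable {n : ℕ}

theorem phi_eq {k : ℕ} (M : Matroid (Fin n)) (F : Fin k → Finset (Fin n)) (H : Finset (Fin n)) :
    phi M F H = cost M F H + ∑ i, (rk M (F i) : ℤ) := by
  unfold phi cost dst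
  rw [sum_sub_distrib, sum_sub_distrib, ← mul_sum, sum_const, card_univ, Fintype.card_fin,
    nsmul_eq_mul]
  ring

theorem dst_self (M : Matroid (Fin n)) (X : Finset (Fin n)) : dst M X X = 0 := by
  unfold dst
  rw [union_self]
  ring

theorem dst_comm (M : Matroid (Fin n)) (X Y : Finset (Fin n)) : dst M X Y = dst M Y X := by
  unfold dst
  rw [union_comm]
  ring

theorem dst_triangle (M : Matroid (Fin n)) (X Y Z : Finset (Fin n)) :
    dst M X Y ≤ dst M X Z + dst M Y Z := by
  have h1 := rk_submod M (X ∪ Z) (Y ∪ Z)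
  have h2 : rk M Z ≤ rk M ((X ∪ Z) ∩ (Y ∪ Z)) :=
    rk_mono M (subset_inter subset_union_right subset_union_right)
  have h3 : rk M (X ∪ Y) ≤ rk M ((X ∪ Z) ∪ (Y ∪ Z)) :=
    rk_mono M (union_subset_union subset_union_left subset_union_left)
  have h4 : (rk M (X ∪ Y) : ℤ) + rk M Z ≤ rk M (X ∪ Z) + rk M (Y ∪ Z) := by
    have : rk M (X ∪ Y) + rk M Z ≤ rk M (X ∪ Z) + rk M (Y ∪ Z) := by omega
    exact_mod_cast this
  unfold dst
  linarith

/-- one of the given sets is within the factor `2 - 2 / k` -/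
theorem upper_bound {k : ℕ} (hk : 0 < k) (M : Matroid (Fin n)) (F : Fin k → Finset (Fin n)) :
    ∃ i, Approx M F (2 - 2 / k) (F i) := by
  have : Nonempty (Fin k) := ⟨⟨0, hk⟩⟩
  obtain ⟨i0, hi0⟩ := Finite.exists_min (fun i => cost M F (F i))
  refine ⟨i0, fun H => ?_⟩
  have h1 : (k : ℤ) * cost M F (F i0) ≤ ∑ i, cost M F (F i) := by
    have : ∑ _i : Fin k, cost M F (F i0) ≤ ∑ i, cost M F (F i) :=
      sum_le_sum (fun i _ => hi0 i)
    rwa [sum_const, card_univ, Fintype.card_fin, nsmul_eq_mul] at this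
  have h2 : ∑ i, cost M F (F i) ≤ (2 * (k : ℤ) - 2) * cost M F H := by
    have h3 : ∀ i j : Fin k, dst M (F j) (F i) ≤
        dst M (F j) H + dst M (F i) H - (if i = j then 2 * dst M (F i) H else 0) := by
      intro i j
      by_cases hij : i = j
      · rw [if_pos hij, hij, dst_self]
        linarith
      · rw [if_neg hij, sub_zero]
        exact dst_triangle M (F j) (F i) H
    calc ∑ i, cost M F (F i)
        ≤ ∑ i : Fin k, ∑ j : Fin k, (dst M (F j) H + dst M (F i) H
            - (if i = j then 2 * dst M (F i) H else 0)) :=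
          sum_le_sum (fun i _ => sum_le_sum (fun j _ => h3 i j))
      _ = ∑ i : Fin k, (cost M F H + (k : ℤ) * dst M (F i) H - 2 * dst M (F i) H) := by
          apply sum_congr rfl
          intro i _
          rw [sum_sub_distrib, sum_add_distrib, sum_const, card_univ, Fintype.card_fin,
            nsmul_eq_mul, sum_ite_eq, if_pos (mem_univ i)]
          rfl
      _ = (2 * (k : ℤ) - 2) * cost M F H := by
          rw [sum_sub_distrib, sum_add_distrib, sum_const, card_univ, Fintype.card_fin,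
            nsmul_eq_mul, ← mul_sum, ← mul_sum]
          unfold cost
          ring
  have h5 : (k : ℝ) * (cost M F (F i0) : ℝ) ≤ (2 * (k : ℝ) - 2) * (cost M F H : ℝ) := by
    exact_mod_cast h1.trans h2
  have hk' : (0 : ℝ) < k := by exact_mod_cast hk
  have h6 : (cost M F (F i0) : ℝ) ≤ ((2 * (k : ℝ) - 2) * (cost M F H : ℝ)) / k := by
    rw [le_div_iff₀ hk']
    linarith
  have h7 : ((2 * (k : ℝ) - 2) * (cost M F H : ℝ)) / k = (2 - 2 / (k : ℝ)) * (cost M F H : ℝ) := by
    field_simp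
  rw [← h7]
  exact h6

variable {l : ℕ}

/-- the given sets of the hard instances: the empty set and the blocks -/
def fam (g : Fin n → Fin (l + 2)) : Fin (l + 3) → Finset (Fin n) := Fin.cons ∅ (blk g)

theorem cost_fam (M : Matroid (Fin n)) (g : Fin n → Fin (l + 2)) (H : Finset (Fin n)) :
    cost M (fam g) H = 2 * ∑ i, (rk M (blk g i ∪ H) : ℤ) - ∑ i, (rk M (blk g i) : ℤ)
      - ((l : ℤ) + 1) * rk M H - rk M ∅ := by
  unfold cost fam
  rw [Fin.sum_univ_succ]
  simp only [Fin.cons_zero, Fin.cons_succ]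
  unfold dst
  rw [empty_union, sum_sub_distrib, sum_sub_distrib, ← mul_sum, sum_const, card_univ,
    Fintype.card_fin, nsmul_eq_mul]
  push_cast
  ring

theorem rk_empty (M : Matroid (Fin n)) : rk M ∅ = 0 := by
  have := rk_le M ∅ 0 (fun I hI _ => by
    have := card_le_card hI
    simpa using this)
  omega

/-- in the reference instance all costs are large -/
theorem cost_ref (g : Fin n → Fin (l + 2)) (c s : ℕ) (hF : ∀ j, 2 * c ≤ (blk g j).card)
    (H : Finset (Fin n)) :
    2 * ((l : ℤ) + 2) * c ≤ cost (ref g 0 c s) (fam g) H := by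
  rw [cost_fam, rk_empty]
  have h1 := ref_bound g 0 c s hF H
  rw [Fintype.card_fin] at h1
  have h2 : ∀ i, (rk (ref g 0 c s) (blk g i) : ℤ) = 2 * c := by
    intro i
    rw [rk_ref_blk g 0 c s hF i]
    push_cast
    ring
  rw [sum_congr rfl (fun i _ => h2 i), sum_const, card_univ, Fintype.card_fin, nsmul_eq_mul]
  have h3 : (4 * ((l : ℤ) + 2) * c + ((l : ℤ) + 1) * rk (ref g 0 c s) H : ℤ) ≤
      2 * ∑ i, (rk (ref g 0 c s) (blk g i ∪ H) : ℤ) := by
    have : l + 2 - 1 = l + 1 := by omega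
    rw [this] at h1
    exact_mod_cast h1
  push_cast
  linarith

/-- in an instance with hidden set, the hidden set is cheap -/
theorem cost_hid (g : Fin n → Fin (l + 2)) (c s : ℕ) (hF : ∀ j, 2 * c ≤ (blk g j).card)
    (A : Finset (Fin n)) (hA : ∀ x ∈ A, g x = 0) (hAc : A.card = c) :
    cost (hid g 0 c s A hA hAc.le) (fam g) A ≤ ((l : ℤ) + 3) * c + 2 * ((l : ℤ) + 1) * s := by
  have h0 : (rk (hid g 0 c s A hA hAc.le) A : ℤ) = c := by
    have := rk_hid_self g 0 c s A hA hAc.le
    exact_mod_cast this.trans hAc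
  rw [cost_fam, rk_empty, h0]
  have h2 : ∀ i, (rk (hid g 0 c s A hA hAc.le) (blk g i) : ℤ) = 2 * c := by
    intro i
    rw [rk_hid_blk g 0 c s hF A hA hAc.le i]
    push_cast
    ring
  rw [sum_congr rfl (fun i _ => h2 i), sum_const, card_univ, Fintype.card_fin, nsmul_eq_mul]
  have h3 : ∑ i, (rk (hid g 0 c s A hA hAc.le) (blk g i ∪ A) : ℤ) ≤
      2 * c + ((l : ℤ) + 1) * (2 * c + s) := by
    rw [Fin.sum_univ_succ]
    have h4 : (rk (hid g 0 c s A hA hAc.le) (blk g 0 ∪ A) : ℤ) ≤ 2 * c := by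
      exact_mod_cast rk_hid_union_self g 0 c s A hA hAc.le
    have h5 : ∑ i : Fin (l + 1), (rk (hid g 0 c s A hA hAc.le) (blk g i.succ ∪ A) : ℤ) ≤
        ((l : ℤ) + 1) * (2 * c + s) := by
      have : ∑ i : Fin (l + 1), (rk (hid g 0 c s A hA hAc.le) (blk g i.succ ∪ A) : ℤ) ≤
          ∑ _i : Fin (l + 1), (2 * (c : ℤ) + s) := by
        apply sum_le_sum
        intro i _
        exact_mod_cast rk_hid_union g 0 c s A hA hAc.le i.succ (Fin.succ_ne_zero i)
      rw [sum_const, card_univ, Fintype.card_fin, nsmul_eq_mul] at this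
      push_cast at this
      exact this
    linarith
  push_cast
  linarith

/-- a good solution distinguishes the hidden instance from the reference instance -/
theorem good_distinguishes (g : Fin n → Fin (l + 2)) (c s : ℕ) (hF : ∀ j, 2 * c ≤ (blk g j).card)
    (A : Finset (Fin n)) (hA : ∀ x ∈ A, g x = 0) (hAc : A.card = c) (ρ : ℝ) (hρ : 0 ≤ ρ)
    (hgap : ρ * (((l : ℝ) + 3) * c + 2 * ((l : ℝ) + 1) * s) < 2 * ((l : ℝ) + 2) * c)
    (X : Finset (Fin n)) (hX : Approx (hid g 0 c s A hA hAc.le) (fam g) ρ X) :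
    ∃ j, rk (hid g 0 c s A hA hAc.le) (fam g j ∪ X) ≠ rk (ref g 0 c s) (fam g j ∪ X) := by
  by_contra hcon
  push Not at hcon
  have h0 : rk (hid g 0 c s A hA hAc.le) X = rk (ref g 0 c s) X := by
    have := hcon 0
    unfold fam at this
    rw [Fin.cons_zero, empty_union] at this
    exact this
  have h1 : ∀ i, rk (hid g 0 c s A hA hAc.le) (blk g i ∪ X) = rk (ref g 0 c s) (blk g i ∪ X) := by
    intro i
    have := hcon i.succ
    unfold fam at this
    rw [Fin.cons_succ] at this
    exact this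
  have h2 : ∀ i, rk (hid g 0 c s A hA hAc.le) (blk g i) = rk (ref g 0 c s) (blk g i) := by
    intro i
    rw [rk_hid_blk g 0 c s hF A hA hAc.le i, rk_ref_blk g 0 c s hF i]
  have h3 : cost (hid g 0 c s A hA hAc.le) (fam g) X = cost (ref g 0 c s) (fam g) X := by
    rw [cost_fam, cost_fam, h0, rk_empty, rk_empty]
    simp only [h1, h2]
  have h4 := cost_ref g c s hF X
  rw [← h3] at h4
  have h5 := cost_hid g c s hF A hA hAc
  have h6 := hX A
  have h7 : (2 * ((l : ℝ) + 2) * c : ℝ) ≤ (cost (hid g 0 c s A hA hAc.le) (fam g) X : ℝ) := by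
    exact_mod_cast h4
  have h8 : (cost (hid g 0 c s A hA hAc.le) (fam g) A : ℝ) ≤
      ((l : ℝ) + 3) * c + 2 * ((l : ℝ) + 1) * s := by
    exact_mod_cast h5
  have h9 := mul_le_mul_of_nonneg_left h8 hρ
  linarith

end Pool.Agent.Y591.MM
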