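import Mathlib
import Pool.Agent.Y591.MM.Adv
import Pool.Agent.Y591.MM.Cnt
import Pool.Agent.Y591.MM.Cost

set_option autoImplicit false

/-!
The lower bound for randomized procedures, and its consequences.
-/

namespace Pool.Agent.Y591.MM

open Finset
open Pool.Agent.Results.MP_8f56b8_lc.ExponentialLowerBound (rk QueryAlg)
open scoped ENNReal Classical

variable {n l c K : ℕ}

/-- the block of an element -/
def gg (e : (Fin c × Fin K) ⊕ (Fin (l + 1) × Fin (2 * c)) ≃ Fin n) (x : Fin n) : Fin (l + 2) :=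
  Sum.elim (fun _ => 0) (fun y => y.1.succ) (e.symm x)

/-- the hidden sets -/
def gra (e : (Fin c × Fin K) ⊕ (Fin (l + 1) × Fin (2 * c)) ≃ Fin n) (f : Fin c → Fin K) :
    Finset (Fin n) := univ.image (fun i : Fin c => e (Sum.inl (i, f i)))

theorem gg_inl (e : (Fin c × Fin K) ⊕ (Fin (l + 1) × Fin (2 * c)) ≃ Fin n) (y : Fin c × Fin K) :
    gg e (e (Sum.inl y)) = 0 := by simp [gg]

theorem gg_inr (e : (Fin c × Fin K) ⊕ (Fin (l + 1) × Fin (2 * c)) ≃ Fin n)
    (y : Fin (l + 1) × Fin (2 * c)) : gg e (e (Sum.inr y)) = y.1.succ := by simp [gg]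

theorem gra_block (e : (Fin c × Fin K) ⊕ (Fin (l + 1) × Fin (2 * c)) ≃ Fin n)
    (f : Fin c → Fin K) : ∀ x ∈ gra e f, gg e x = 0 := by
  intro x hx
  unfold gra at hx
  rw [mem_image] at hx
  obtain ⟨i, -, rfl⟩ := hx
  exact gg_inl e _

theorem gra_inj (e : (Fin c × Fin K) ⊕ (Fin (l + 1) × Fin (2 * c)) ≃ Fin n)
    (f : Fin c → Fin K) : Function.Injective (fun i : Fin c => e (Sum.inl (i, f i))) := by
  intro i j hij
  have h1 := e.injective hij
  have h2 := Sum.inl_injective h1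
  exact congrArg Prod.fst h2

theorem gra_card (e : (Fin c × Fin K) ⊕ (Fin (l + 1) × Fin (2 * c)) ≃ Fin n)
    (f : Fin c → Fin K) : (gra e f).card = c := by
  unfold gra
  rw [card_image_of_injective _ (gra_inj e f), card_univ, Fintype.card_fin]

theorem blocks_large (e : (Fin c × Fin K) ⊕ (Fin (l + 1) × Fin (2 * c)) ≃ Fin n) (hK : 2 ≤ K) :
    ∀ j, 2 * c ≤ (blk (gg e) j).card := by
  intro j
  refine Fin.cases ?_ (fun i => ?_) j
  · have h1 : (univ.image (fun y : Fin c × Fin K => e (Sum.inl y))) ⊆ blk (gg e) 0 := by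
      intro x hx
      rw [mem_image] at hx
      obtain ⟨y, -, rfl⟩ := hx
      unfold blk
      rw [mem_filter]
      exact ⟨mem_univ _, gg_inl e y⟩
    have h2 := card_le_card h1
    rw [card_image_of_injective _ (fun x y hxy => Sum.inl_injective (e.injective hxy)), card_univ,
      Fintype.card_prod, Fintype.card_fin, Fintype.card_fin] at h2
    refine le_trans ?_ h2
    rw [mul_comm 2 c]
    exact Nat.mul_le_mul_left _ hK
  · have h1 : (univ.image (fun y : Fin (2 * c) => e (Sum.inr (i, y)))) ⊆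
        blk (gg e) i.succ := by
      intro x hx
      rw [mem_image] at hx
      obtain ⟨y, -, rfl⟩ := hx
      unfold blk
      rw [mem_filter]
      exact ⟨mem_univ _, gg_inr e (i, y)⟩
    have h2 := card_le_card h1
    rw [card_image_of_injective _ (fun x y hxy => by
      have h3 := Sum.inr_injective (e.injective hxy)
      exact congrArg Prod.snd h3), card_univ, Fintype.card_fin] at h2
    exact h2

/-- the hidden instances -/
noncomputable def hidf (e : (Fin c × Fin K) ⊕ (Fin (l + 1) × Fin (2 * c)) ≃ Fin n) (s : ℕ)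
    (f : Fin c → Fin K) : Matroid (Fin n) :=
  hid (gg e) 0 c s (gra e f) (gra_block e f) (gra_card e f).le

/-- a query distinguishes few hidden instances from the reference instance -/
theorem few_distinguished (e : (Fin c × Fin K) ⊕ (Fin (l + 1) × Fin (2 * c)) ≃ Fin n) (s : ℕ)
    (q : Finset (Fin n)) :
    ((univ : Finset (Fin c → Fin K)).filter
      (fun f => rk (hidf e s f) q ≠ rk (ref (gg e) 0 c s) q)).card ≤
      2 ^ (2 * c) * K ^ (c - (s + 1)) := by
  by_cases hne : ((univ : Finset (Fin c → Fin K)).filter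
      (fun f => rk (hidf e s f) q ≠ rk (ref (gg e) 0 c s) q)).Nonempty
  · have hbad : ∀ f : Fin c → Fin K, rk (hidf e s f) q ≠ rk (ref (gg e) 0 c s) q →
        s + 1 ≤ (q ∩ gra e f).card ∧
          s + ((q.filter (fun x => gg e x = 0)) \ gra e f).card < c := by
      intro f hf
      constructor
      · by_contra hcon
        apply hf
        exact rk_hid_eq _ _ _ _ _ _ _ _ (Or.inl (by omega))
      · by_contra hcon
        apply hf
        exact rk_hid_eq _ _ _ _ _ _ _ _ (Or.inr (by omega))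
    set B : Finset (Fin c × Fin K) := univ.filter (fun x => e (Sum.inl x) ∈ q) with hB
    have hBc : B.card ≤ 2 * c := by
      obtain ⟨f0, hf0⟩ := hne
      rw [mem_filter] at hf0
      have h1 := (hbad f0 hf0.2).2
      have h2 : B.image (fun x => e (Sum.inl x)) ⊆ q.filter (fun x => gg e x = 0) := by
        intro x hx
        rw [mem_image] at hx
        obtain ⟨y, hy, rfl⟩ := hx
        rw [hB, mem_filter] at hy
        rw [mem_filter]
        exact ⟨hy.2, gg_inl e y⟩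
      have h3 := card_le_card h2
      rw [card_image_of_injective _ (fun x y hxy => Sum.inl_injective (e.injective hxy))] at h3
      have h4 := card_le_card_sdiff_add_card (s := q.filter (fun x => gg e x = 0)) (t := gra e f0)
      have h5 := gra_card e f0
      omega
    refine le_trans (card_le_card ?_) (card_hits B (s + 1) (2 * c) hBc)
    intro f hf
    rw [mem_filter] at hf ⊢
    refine ⟨hf.1, ?_⟩
    have h1 := (hbad f hf.2).1
    have h2 : q ∩ gra e f =
        (univ.filter (fun i => (i, f i) ∈ B)).image (fun i => e (Sum.inl (i, f i))) := by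
      ext x
      unfold gra
      rw [mem_inter, mem_image, mem_image]
      constructor
      · rintro ⟨hx, i, -, rfl⟩
        refine ⟨i, ?_, rfl⟩
        rw [mem_filter, hB, mem_filter]
        exact ⟨mem_univ _, mem_univ _, hx⟩
      · rintro ⟨i, hi, rfl⟩
        rw [mem_filter, hB, mem_filter] at hi
        exact ⟨hi.2.2, i, mem_univ _, rfl⟩
    rw [h2, card_image_of_injective _ (gra_inj e f)] at h1
    exact h1
  · rw [not_nonempty_iff_eq_empty] at hne
    rw [hne, card_empty]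
    exact Nat.zero_le _

theorem main_bound (e : (Fin c × Fin K) ⊕ (Fin (l + 1) × Fin (2 * c)) ≃ Fin n) (s : ℕ)
    (hK : 2 ≤ K) (ρ : ℝ) (hρ : 0 ≤ ρ)
    (hgap : ρ * (((l : ℝ) + 3) * c + 2 * ((l : ℝ) + 1) * s) < 2 * ((l : ℝ) + 2) * c)
    (D : RandProc n) (p : ℝ≥0∞)
    (hD : ∀ M : Matroid (Fin n), M.E = Set.univ →
      p ≤ probability D M (Approx M (fam (gg e)) ρ)) :
    ((K ^ c : ℕ) : ℝ≥0∞) * p ≤ ((2 ^ (2 * c) * K ^ (c - (s + 1)) : ℕ) : ℝ≥0∞) *
      (expectedCalls D (ref (gg e) 0 c s) + ((l + 3 : ℕ) : ℝ≥0∞)) := by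
  have hF := blocks_large e hK
  have h1 := sum_probability_le D (ref (gg e) 0 c s) (hidf e s)
    (univ : Finset (Fin c → Fin K)) (2 ^ (2 * c) * K ^ (c - (s + 1))) (l + 3)
    (fun q => by
      refine le_trans (le_of_eq ?_) (few_distinguished e s q)
      congr)
    (fun f X => Approx (hidf e s f) (fam (gg e)) ρ X)
    (fun X => by
      have hsub : (univ : Finset (Fin c → Fin K)).filter
          (fun f => Approx (hidf e s f) (fam (gg e)) ρ X) ⊆
          (univ : Finset (Fin (l + 3))).biUnion (fun j => (univ : Finset (Fin c → Fin K)).filter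
            (fun f => rk (hidf e s f) (fam (gg e) j ∪ X) ≠
              rk (ref (gg e) 0 c s) (fam (gg e) j ∪ X))) := by
        intro f hf
        rw [mem_filter] at hf
        obtain ⟨j, hj⟩ := good_distinguishes (gg e) c s hF (gra e f) (gra_block e f)
          (gra_card e f) ρ hρ hgap X hf.2
        rw [mem_biUnion]
        exact ⟨j, mem_univ _, by rw [mem_filter]; exact ⟨mem_univ _, hj⟩⟩
      refine (card_le_card hsub).trans ?_
      refine (card_biUnion_le_card_mul _ _ _ (fun j _ => few_distinguished e s _)).trans ?_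
      rw [card_univ, Fintype.card_fin])
  refine le_trans ?_ h1
  have h2 : ((K ^ c : ℕ) : ℝ≥0∞) * p ≤ ∑ f : Fin c → Fin K, probability D (hidf e s f)
      (Approx (hidf e s f) (fam (gg e)) ρ) := by
    have h3 : (univ : Finset (Fin c → Fin K)).card • p ≤ ∑ f : Fin c → Fin K,
        probability D (hidf e s f) (Approx (hidf e s f) (fam (gg e)) ρ) :=
      card_nsmul_le_sum _ _ _ (fun f _ => hD _ (hid_E _ _ _ _ _ _ _))
    rw [card_univ, Fintype.card_fun, Fintype.card_fin, Fintype.card_fin, nsmul_eq_mul] at h3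
    exact h3
  exact h2

/-- the lower bound for a fixed number of given sets and a fixed factor below `2 - 2 / k` -/
theorem lower_bound (k : ℕ) (hk : 3 ≤ k) (ρ : ℝ) (hρ1 : 1 ≤ ρ) (hρ : ρ < 2 - 2 / k) :
    ∃ C : ℕ, 0 < C ∧ ∀ t : ℕ, 0 < t →
      ∃ (F : Fin k → Finset (Fin (C * t))) (M₀ : Matroid (Fin (C * t))), M₀.E = Set.univ ∧
        ∀ (D : RandProc (C * t)) (p : ℝ≥0∞),
          (∀ M : Matroid (Fin (C * t)), M.E = Set.univ → p ≤ probability D M (Approx M F ρ)) →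
          p * 2 ^ t ≤ expectedCalls D M₀ + k := by
  obtain ⟨l, rfl⟩ : ∃ l, k = l + 3 := ⟨k - 3, by omega⟩
  have hl3 : (0 : ℝ) < (l : ℝ) + 3 := by positivity
  have hpos : 0 < 2 * ((l : ℝ) + 2) - ρ * ((l : ℝ) + 3) := by
    push_cast at hρ
    have h1 : ρ * ((l : ℝ) + 3) < (2 - 2 / ((l : ℝ) + 3)) * ((l : ℝ) + 3) :=
      mul_lt_mul_of_pos_right hρ hl3
    have h2 : (2 - 2 / ((l : ℝ) + 3)) * ((l : ℝ) + 3) = 2 * ((l : ℝ) + 2) := by
      field_simp
      ring
    linarith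
  obtain ⟨L, hL⟩ := exists_nat_ge (2 * ρ * ((l : ℝ) + 1) /
    (2 * ((l : ℝ) + 2) - ρ * ((l : ℝ) + 3)))
  rw [div_le_iff₀ hpos] at hL
  have hL0 : 0 < L := by
    rcases Nat.eq_zero_or_pos L with h | h
    · exfalso
      rw [h] at hL
      have : (0 : ℝ) < 2 * ρ * ((l : ℝ) + 1) := by positivity
      push_cast at hL
      linarith
    · exact h
  refine ⟨L * (8 ^ L + 2 * (l + 1)), by positivity, fun t ht => ?_⟩
  set n := L * (8 ^ L + 2 * (l + 1)) * t with hn
  have hcard : Fintype.card ((Fin (L * t) × Fin (8 ^ L)) ⊕ (Fin (l + 1) × Fin (2 * (L * t)))) =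
      n := by
    rw [Fintype.card_sum, Fintype.card_prod, Fintype.card_prod, Fintype.card_fin,
      Fintype.card_fin, Fintype.card_fin, Fintype.card_fin, hn]
    ring
  set e := Fintype.equivFinOfCardEq hcard with he
  obtain ⟨s, hs⟩ : ∃ s, t = s + 1 := ⟨t - 1, by omega⟩
  have hgap : ρ * (((l : ℝ) + 3) * ((L * t : ℕ) : ℝ) + 2 * ((l : ℝ) + 1) * (s : ℝ)) <
      2 * ((l : ℝ) + 2) * ((L * t : ℕ) : ℝ) := by
    have h1 : ((L * t : ℕ) : ℝ) = L * ((s : ℝ) + 1) := by
      rw [hs]; push_cast; ring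
    rw [h1]
    have h2 : 0 ≤ (s : ℝ) := Nat.cast_nonneg s
    have h3 : 2 * ρ * ((l : ℝ) + 1) * ((s : ℝ) + 1) ≤
        (L : ℝ) * (2 * ((l : ℝ) + 2) - ρ * ((l : ℝ) + 3)) * ((s : ℝ) + 1) :=
      mul_le_mul_of_nonneg_right hL (by linarith)
    have h4 : (0 : ℝ) < 2 * ρ * ((l : ℝ) + 1) := by positivity
    nlinarith
  have hK : 2 ≤ 8 ^ L := by
    calc 2 ≤ 8 ^ 1 := by norm_num
      _ ≤ 8 ^ L := Nat.pow_le_pow_right (by norm_num) hL0
  refine ⟨fam (gg e), ref (gg e) 0 (L * t) s, hid_E _ _ _ _ _ _ _, fun D p hD => ?_⟩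
  have h1 := main_bound e s hK ρ (by linarith) hgap D p hD
  have h5 : (8 ^ L) ^ (L * t) = 2 ^ (2 * (L * t)) * (8 ^ L) ^ (L * t - (s + 1)) * 2 ^ (L * t) := by
    have h6 : s + 1 ≤ L * t := by
      rw [← hs]
      exact Nat.le_mul_of_pos_left _ hL0
    have h7 : (8 ^ L) ^ (L * t) = (8 ^ L) ^ (s + 1) * (8 ^ L) ^ (L * t - (s + 1)) := by
      rw [← pow_add]
      congr 1
      omega
    rw [h7, ← hs]
    have h8 : (8 ^ L) ^ t = 2 ^ (2 * (L * t)) * 2 ^ (L * t) := by
      rw [← pow_mul, ← pow_add, show (8 : ℕ) = 2 ^ 3 by norm_num, ← pow_mul]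
      congr 1
      ring
    rw [h8]
    ring
  rw [h5] at h1
  set m := 2 ^ (2 * (L * t)) * (8 ^ L) ^ (L * t - (s + 1)) with hm
  have hm0 : (m : ℝ≥0∞) ≠ 0 := by
    have : 0 < m := by positivity
    exact_mod_cast this.ne'
  have h9 : (m : ℝ≥0∞) * (p * 2 ^ (L * t)) ≤ (m : ℝ≥0∞) *
      (expectedCalls D (ref (gg e) 0 (L * t) s) + ((l + 3 : ℕ) : ℝ≥0∞)) := by
    refine le_trans (le_of_eq ?_) h1
    push_cast
    ring
  have h10 := (ENNReal.mul_le_mul_iff_right hm0 (ENNReal.natCast_ne_top m)).1 h9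
  refine le_trans ?_ h10
  gcongr
  · norm_num
  · exact Nat.le_mul_of_pos_left _ hL0

/-- exponentials outgrow polynomials -/
theorem exists_large (c C k : ℕ) :
    ∃ t : ℕ, 0 < t ∧ c * (C * t + k + 1) ^ c * (c * (C * t + k + 1) ^ c + k) < 2 ^ t := by
  have hlim : Filter.Tendsto (fun m : ℕ => (((c + k : ℕ) : ℝ) ^ 2 * ((C + k + 1 : ℕ) : ℝ) ^ (2 * c)) *
      ((m : ℝ) ^ (2 * c) / 2 ^ m)) Filter.atTop (nhds 0) := by
    have := (tendsto_pow_const_div_const_pow_of_one_lt (2 * c) (r := 2) (by norm_num)).const_mul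
      (((c + k : ℕ) : ℝ) ^ 2 * ((C + k + 1 : ℕ) : ℝ) ^ (2 * c))
    simpa using this
  have hev := hlim.eventually (gt_mem_nhds (show (0 : ℝ) < 1 by norm_num))
  obtain ⟨t, ht1, ht⟩ := (hev.and (Filter.eventually_ge_atTop 1)).exists
  refine ⟨t, ht, ?_⟩
  have h7 : (0 : ℝ) < 2 ^ t := by positivity
  have h8 : (((c + k : ℕ) : ℝ) ^ 2 * ((C + k + 1 : ℕ) : ℝ) ^ (2 * c)) * ((t : ℝ) ^ (2 * c) / 2 ^ t)
      = (((c + k : ℕ) : ℝ) ^ 2 * ((C + k + 1 : ℕ) : ℝ) ^ (2 * c) * (t : ℝ) ^ (2 * c)) / 2 ^ t := by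
    ring
  rw [h8, div_lt_one h7] at ht1
  have h9 : (c + k) ^ 2 * (C + k + 1) ^ (2 * c) * t ^ (2 * c) < 2 ^ t := by exact_mod_cast ht1
  refine lt_of_le_of_lt ?_ h9
  have h2 : C * t + k + 1 ≤ (C + k + 1) * t := by nlinarith
  have h3 : (C * t + k + 1) ^ c ≤ ((C + k + 1) * t) ^ c := Nat.pow_le_pow_left h2 c
  have h4 : 1 ≤ ((C + k + 1) * t) ^ c := Nat.one_le_pow _ _ (by positivity)
  set Y := ((C + k + 1) * t) ^ c with hY
  have h5 : c * (C * t + k + 1) ^ c ≤ c * Y := Nat.mul_le_mul_left _ h3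
  have h6 : c * (C * t + k + 1) ^ c * (c * (C * t + k + 1) ^ c + k) ≤
      ((c + k) * Y) * ((c + k) * Y) := by
    apply Nat.mul_le_mul
    · nlinarith
    · nlinarith
  refine h6.trans (le_of_eq ?_)
  rw [hY, mul_pow]
  ring

theorem no_efficient (k : ℕ) (hk : 3 ≤ k) (ρ : ℝ) (hρ1 : 1 ≤ ρ) (hρ : ρ < 2 - 2 / k)
    (A : RandAlg) (c : ℕ) : ¬ Efficient k ρ A c := by
  intro hA
  obtain ⟨C, _, hC⟩ := lower_bound k hk ρ hρ1 hρ
  obtain ⟨t, ht, hlarge⟩ := exists_large c C k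
  obtain ⟨F, M₀, hM₀, h⟩ := hC t ht
  set b : ℕ := c * (C * t + k + 1) ^ c with hb
  have h1 := h (A (C * t) k F) ((b : ℝ≥0∞)⁻¹) (fun M hM => (hA (C * t) M F hM).2)
  have h2 := (hA (C * t) M₀ F hM₀).1
  rw [← hb] at h2
  have h3 : (b : ℝ≥0∞)⁻¹ * 2 ^ t ≤ (b : ℝ≥0∞) + k := h1.trans (by gcongr)
  have h2t : (2 : ℝ≥0∞) ^ t ≠ 0 := by positivity
  have hb0 : (b : ℝ≥0∞) ≠ 0 := by
    intro h0
    rw [h0, ENNReal.inv_zero, ENNReal.top_mul h2t] at h3
    rw [zero_add, top_le_iff] at h3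
    exact ENNReal.natCast_ne_top k h3
  have h4 : (2 : ℝ≥0∞) ^ t ≤ (b : ℝ≥0∞) * ((b : ℝ≥0∞) + k) := by
    calc (2 : ℝ≥0∞) ^ t = (b : ℝ≥0∞) * ((b : ℝ≥0∞)⁻¹ * 2 ^ t) := by
          rw [← mul_assoc, ENNReal.mul_inv_cancel hb0 (ENNReal.natCast_ne_top b), one_mul]
      _ ≤ _ := by gcongr
  have h5 : 2 ^ t ≤ b * (b + k) := by exact_mod_cast h4
  omega

end Pool.Agent.Y591.MM
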